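import Pool.Agent.Helper86.TH.Stmts

/-!
# Project TH, row GN: algebraically independent parameters are generic
-/

namespace TH8

open TH MvPolynomial Finset

/-- The exponent `(j, i)`. -/
noncomputable def mon (j i : ℕ) : Fin 2 →₀ ℕ := Finsupp.single 0 j + Finsupp.single 1 i

theorem mon_zero (j i : ℕ) : mon j i 0 = j := by simp [mon]

theorem mon_one (j i : ℕ) : mon j i 1 = i := by simp [mon]

theorem mon_inj {j i j' i' : ℕ} (h : mon j i = mon j' i') : j = j' ∧ i = i' := by
  have h0 := congrArg (fun s : Fin 2 →₀ ℕ => s 0) h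
  have h1 := congrArg (fun s : Fin 2 →₀ ℕ => s 1) h
  simp only [mon_zero, mon_one] at h0 h1
  exact ⟨h0, h1⟩

variable {K : Type*} [Field K] [CharZero K]

theorem aeval_mon (q t : K) (j i : ℕ) :
    aeval ![q, t] (monomial (mon j i) (1 : ℚ)) = q ^ j * t ^ i := by
  rw [aeval_monomial, mon, Finsupp.prod_add_index' (fun _ => pow_zero _) (fun _ _ _ => pow_add _ _ _)]
  simp

/-- The polynomial of a partition. -/
noncomputable def PP (μ : Par) : MvPolynomial (Fin 2) ℚ :=
  csum μ (fun i j => monomial (mon j i) (1 : ℚ))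

theorem aeval_PP (q t : K) (μ : Par) : aeval ![q, t] (PP μ) = Ps q t μ 0 := by
  rw [PP, csum, Ps, csum, map_sum]
  refine Finset.sum_congr rfl fun i _ => ?_
  rw [map_sum]
  refine Finset.sum_congr rfl fun j _ => ?_
  rw [aeval_mon, zero_add, pow_one]

theorem coeff_PP (μ : Par) (j i : ℕ) :
    coeff (mon j i) (PP μ) = if j < μ.1 i then (1 : ℚ) else 0 := by
  rw [PP, csum_range μ _ (card μ + i + 1) (fun k hk => Par.zero_of_card_le _ (by omega)),
    coeff_sum]
  rw [Finset.sum_eq_single_of_mem i (by rw [mem_range]; omega)]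
  · rw [coeff_sum]
    by_cases h : j < μ.1 i
    · rw [if_pos h, Finset.sum_eq_single_of_mem j (mem_range.2 h)]
      · rw [coeff_monomial, if_pos rfl]
      · intro j' _ hj
        rw [coeff_monomial, if_neg]
        intro he
        exact hj (mon_inj he).1
    · rw [if_neg h]
      refine Finset.sum_eq_zero fun j' hj' => ?_
      rw [mem_range] at hj'
      rw [coeff_monomial, if_neg]
      intro he
      have := (mon_inj he).1
      omega
  · intro i' _ hi
    rw [coeff_sum]
    refine Finset.sum_eq_zero fun j' _ => ?_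
    rw [coeff_monomial, if_neg]
    intro he
    exact hi (mon_inj he).2

theorem st_GN (K : Type*) [Field K] [CharZero K] : ST_GN K := by
  intro q t h
  have hinj : Function.Injective (aeval (R := ℚ) ![q, t]) := h
  have hq : q ≠ 0 := h.ne_zero 0
  have ht : t ≠ 0 := h.ne_zero 1
  refine ⟨hq, ht, ?_, ?_⟩
  · intro a b hab
    have h1 : q ^ a.toNat * t ^ b.toNat = q ^ (-a).toNat * t ^ (-b).toNat := by
      have ha : (a.toNat : ℤ) = a + ((-a).toNat : ℤ) := by omega
      have hb : (b.toNat : ℤ) = b + ((-b).toNat : ℤ) := by omega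
      rw [← zpow_natCast, ← zpow_natCast, ← zpow_natCast q (-a).toNat,
        ← zpow_natCast t (-b).toNat, ha, hb, zpow_add₀ hq, zpow_add₀ ht]
      calc q ^ a * q ^ ((-a).toNat : ℤ) * (t ^ b * t ^ ((-b).toNat : ℤ))
          = (q ^ a * t ^ b) * (q ^ ((-a).toNat : ℤ) * t ^ ((-b).toNat : ℤ)) := by ring
        _ = q ^ ((-a).toNat : ℤ) * t ^ ((-b).toNat : ℤ) := by rw [hab, one_mul]
    rw [← aeval_mon, ← aeval_mon] at h1
    have h2 := hinj h1
    have h3 : mon a.toNat b.toNat = mon (-a).toNat (-b).toNat :=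
      monomial_left_injective one_ne_zero h2
    have h4 := mon_inj h3
    omega
  · intro μ ν hμν
    rw [← aeval_PP, ← aeval_PP] at hμν
    have h2 := hinj hμν
    apply Subtype.ext
    ext i
    by_contra hne
    have key : ∀ j, j < μ.1 i ↔ j < ν.1 i := by
      intro j
      have h3 := coeff_PP μ j i
      rw [h2, coeff_PP ν j i] at h3
      by_cases h4 : j < μ.1 i
      · by_cases h5 : j < ν.1 i
        · exact ⟨fun _ => h5, fun _ => h4⟩
        · rw [if_pos h4, if_neg h5] at h3
          exact absurd h3 (by norm_num)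
      · by_cases h5 : j < ν.1 i
        · rw [if_neg h4, if_pos h5] at h3
          exact absurd h3 (by norm_num)
        · exact ⟨fun h => absurd h h4, fun h => absurd h h5⟩
    have k1 := key (μ.1 i)
    have k2 := key (ν.1 i)
    omega

end TH8
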