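import Pool.Agent.Helper86.TH.Stmts

/-!
# Project TH, row W6
-/

set_option linter.unusedSectionVars false

namespace TH8

open TH MvPolynomial Finset

variable {K : Type*} [Field K] [CharZero K]

theorem eq_C_of_WH_zero {F : Sy K} (h : WH 0 F) : F = C (coeff 0 F) := by
  ext s
  rw [coeff_C]
  by_cases hs : (0 : ℕ →₀ ℕ) = s
  · rw [if_pos hs, hs]
  · rw [if_neg hs]
    by_contra hne
    have h1 := h hne
    rw [Finsupp.weight_apply, Finsupp.sum, Finset.sum_eq_zero_iff] at h1
    apply hs
    symm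
    ext i
    by_contra hi
    have h2 := h1 i (Finsupp.mem_support_iff.2 hi)
    rw [smul_eq_mul] at h2
    rcases Nat.mul_eq_zero.1 h2 with h3 | h3
    · exact hi h3
    · omega

theorem b_P0 {q t : K} {b : Module.Basis Par K (Sy K)} (h : IsE q t b) : b P0 = 1 := by
  have h1 : WH 0 (b P0) := by
    have := h.hom P0
    rwa [card_P0] at this
  have h2 := eq_C_of_WH_zero h1
  have h3 := h.eps P0
  rw [h2] at h3 ⊢
  have h4 : ep (0 : K) (C (coeff 0 (b P0))) = coeff 0 (b P0) := by
    rw [ep, ev, aeval_C]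
    rfl
  rw [h4] at h3
  rw [h3, C_1]

theorem Nu_P0 (q t u : K) : Nu q t u P0 = 1 := by
  simp [Nu, cprod, P0]

theorem dg_Nu_one {q t : K} {b : Module.Basis Par K (Sy K)} (h : IsE q t b) (v : K) :
    dg b (Nu q t v) 1 = 1 := by
  have h1 := dg_apply_basis b (Nu q t v) P0
  rw [b_P0 h, Nu_P0, one_smul] at h1
  exact h1

theorem Nu_one_sq (q t : K) (μ : Par) : Nu q t 1 μ * Nu q t 1 μ = Nu q t 1 μ := by
  by_cases h : μ.1 0 = 0
  · have h1 : μ = P0 := by
      apply Subtype.ext
      ext i
      have := μ.anti (Nat.zero_le i)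
      change μ.1 i = 0
      omega
    rw [h1, Nu_P0, mul_one]
  · have h2 : Nu q t 1 μ = 0 := by
      rw [Nu, cprod]
      refine Finset.prod_eq_zero (Finsupp.mem_support_iff.2 h) ?_
      refine Finset.prod_eq_zero (mem_range.2 (Nat.pos_of_ne_zero h)) ?_
      simp
    rw [h2, mul_zero]

theorem ep_one_est (q t : K) (k : ℕ) : ep (1 : K) (est q t k) = if k = 0 then 1 else 0 := by
  have h1 := hc_map (ep (1 : K) : Sy K →ₐ[K] K).toRingHom
    (fun i => (-1) ^ i * (C (Mj q t i)⁻¹ * X i : Sy K)) k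
  have h2 : (fun i => (ep (1 : K) : Sy K →ₐ[K] K).toRingHom
      ((-1) ^ i * (C (Mj q t i)⁻¹ * X i : Sy K))) = fun _ => (0 : K) := by
    funext i
    change ep (1 : K) ((-1) ^ i * (C (Mj q t i)⁻¹ * X i : Sy K)) = 0
    rw [map_mul, map_mul]
    have : ep (1 : K) (X i : Sy K) = 0 := by
      rw [ep, ev, aeval_X]
      simp
    rw [this, mul_zero, mul_zero]
  rw [h2] at h1
  have h3 : ep (1 : K) (est q t k) = hc (fun _ => (0 : K)) k := h1
  rw [h3]
  cases k with
  | zero => simp
  | succ k => rw [hc_zero_fun]; simp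

theorem st_W6 (K : Type*) [Field K] [CharZero K] (h5 : ST_W5 K) (h2 : ST_W2 K) (hF : ST_F2 K) :
    ST_W6 K := by
  intro q t hg b hb u k
  have hE : IsE q t b := hb.toIsE
  -- the expansion
  have hJ : ∀ u v : K, ep u (dg b (Nu q t v) (est q t k))
      = ∑ j ∈ range (k + 1), v ^ j * (ep u (est q t (k - j)) * ep u (Yy q t b j j 1)) := by
    intro u v
    have h := congrArg (fun T : Module.End K (Sy K) => ep u (T 1)) (h5 q t hg b hb v k)
    simp only [Module.End.mul_apply, mu_apply, mul_one, LinearMap.sum_apply, LinearMap.smul_apply,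
      dg_Nu_one hE, map_sum, map_smul, smul_eq_mul] at h
    rw [h]
    refine Finset.sum_congr rfl fun j hj => ?_
    rw [mem_range] at hj
    rw [h2 q t hg b hb u k j 1 (by omega)]
  -- symmetry
  have hS : ∀ u v : K, ep u (dg b (Nu q t v) (est q t k)) = ep v (dg b (Nu q t u) (est q t k)) := by
    intro u v
    rw [hF q t hg b hb u, hF q t hg b hb v, ← Module.End.mul_apply, ← Module.End.mul_apply,
      dg_comm]
  have h1v : ∀ v : K, ep 1 (dg b (Nu q t v) (est q t k)) = v ^ k * ep 1 (Yy q t b k k 1) := by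
    intro v
    rw [hJ, Finset.sum_eq_single_of_mem k (by rw [mem_range]; omega)]
    · rw [Nat.sub_self, ep_one_est, if_pos rfl, one_mul]
    · intro j hj hne
      rw [mem_range] at hj
      rw [ep_one_est, if_neg (by omega), zero_mul, mul_zero]
  have h11 : ep 1 (dg b (Nu q t 1) (est q t k)) = if k = 0 then 1 else 0 := by
    rw [← ep_one_est q t k, hF q t hg b hb 1, hF q t hg b hb 1 (est q t k),
      ← Module.End.mul_apply, dg_mul]
    congr 3
    funext μ
    exact Nu_one_sq q t μ
  have hc : ep 1 (Yy q t b k k 1) = if k = 0 then (1 : K) else 0 := by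
    have := h1v 1
    rw [h11, one_pow, one_mul] at this
    exact this.symm
  have hfin : ep u (dg b (Nu q t 1) (est q t k)) = if k = 0 then 1 else 0 := by
    rw [hS, h1v, hc]
    by_cases hk : k = 0
    · subst hk; simp
    · simp [hk]
  have hs : ∑ p ∈ antidiagonal k, ep u (est q t p.1) * ep u (Yy q t b p.2 p.2 1)
      = ∑ j ∈ range (k + 1), ep u (est q t (k - j)) * ep u (Yy q t b j j 1) := by
    rw [← Finset.Nat.sum_antidiagonal_swap]
    exact Finset.Nat.sum_antidiagonal_eq_sum_range_succ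
      (fun a c => ep u (est q t c) * ep u (Yy q t b a a 1)) k
  rw [hs, ← hfin, hJ]
  refine Finset.sum_congr rfl fun j _ => ?_
  rw [one_pow, one_mul]

end TH8
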